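import Pool.Agent.H65.AD.TargetsA
import Pool.Agent.H95.AD.TargetsU

/-!
# The local weights for a fundamental discriminant
-/

set_option autoImplicit false

open MeasureTheory Set Filter
open scoped Real

namespace Pool.Agent.H14.AD

open Pool.Agent.H31.CN Pool.Agent.H95.AD Pool.Agent.H50.CN Pool.Agent.H65.AD

/-- the indicator of a proposition -/
noncomputable def iv (q : Prop) : ℝ := open Classical in if q then 1 else 0

theorem iv_pos {q : Prop} (h : q) : iv q = 1 := if_pos h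

theorem iv_neg {q : Prop} (h : ¬ q) : iv q = 0 := if_neg h

theorem ite_iv (q r : Prop) [Decidable (q ∧ r)] (c : ℝ) :
    (if q ∧ r then c else 0) = iv q * (iv r * c) := by
  by_cases hq : q
  · by_cases hr : r
    · rw [if_pos ⟨hq, hr⟩, iv_pos hq, iv_pos hr, one_mul, one_mul]
    · rw [if_neg fun h => hr h.2, iv_neg hr, zero_mul, mul_zero]
  · rw [if_neg fun h => hq h.1, iv_neg hq, zero_mul]

theorem loc_gen (q : ℕ → ℕ → ℝ) (p e A : ℕ) : loc q p e A =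
    (q 0 0 + iv (p ∣ e) * q 0 1 + iv (p ^ 2 ∣ e) * q 0 2) +
      iv (p ∣ A) * (q 1 0 + iv (p ∣ e) * q 1 1 + iv (p ^ 2 ∣ e) * q 1 2) +
      iv (p ^ 2 ∣ A) * (q 2 0 + iv (p ∣ e) * q 2 1 + iv (p ^ 2 ∣ e) * q 2 2) := by
  unfold loc
  simp only [Finset.sum_range_succ, Finset.range_zero, Finset.sum_empty, ite_iv, pow_zero,
    pow_one, iv_pos (one_dvd A), iv_pos (one_dvd e)]
  ring

theorem loc_0 (x : ℤ) (p e A : ℕ) : loc (qT x 0) p e A =
    1 + x * iv (p ∣ A) - iv (x = 0) * iv (p ^ 2 ∣ A) := by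
  rw [loc_gen]
  by_cases hx : x = 0
  · rw [iv_pos hx]
    simp only [qT, ec, if_pos hx]
    ring
  · rw [iv_neg hx]
    simp only [qT, ec, if_neg hx]
    ring

theorem loc_1 (x : ℤ) (p e A : ℕ) : loc (qT x 1) p e A =
    (1 + x) * (iv (p ∣ A) + iv (p ∣ e)) -
      iv (x = 0) * (iv (p ∣ A) * iv (p ∣ e) + iv (p ^ 2 ∣ A)) := by
  rw [loc_gen]
  by_cases hx : x = 0
  · rw [iv_pos hx]
    simp only [qT, ec, if_pos hx]
    ring
  · rw [iv_neg hx]
    simp only [qT, ec, if_neg hx]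
    ring

theorem loc_2 (x : ℤ) (p e A : ℕ) : loc (qT x 2) p e A =
    (1 + x) * (iv (p ∣ e) + iv (p ^ 2 ∣ e) + 2 * iv (p ∣ A) * iv (p ∣ e) + iv (p ^ 2 ∣ A) -
      iv (p ^ 2 ∣ A) * iv (p ∣ e)) -
      iv (x = 0) * (iv (p ^ 2 ∣ e) + 2 * iv (p ∣ A) * iv (p ∣ e) + iv (p ^ 2 ∣ A)) := by
  rw [loc_gen]
  by_cases hx : x = 0
  · rw [iv_pos hx]
    simp only [qT, ec, if_pos hx]
    ring
  · rw [iv_neg hx]
    simp only [qT, ec, if_neg hx]
    ring

theorem iv_cases (q : Prop) : iv q = 0 ∨ iv q = 1 := by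
  by_cases h : q
  · exact Or.inr (iv_pos h)
  · exact Or.inl (iv_neg h)

/-- the comparison of the local weights -/
theorem cmp (x a1 a2 e1 e2 : ℝ) (h1 : a1 = 0 ∨ a1 = 1) (h2 : a2 = 0 ∨ a2 = 1)
    (h3 : e1 = 0 ∨ e1 = 1) (h4 : a1 = 0 → a2 = 0) (h5 : e1 = 0 → e2 = 0) :
    (x = 1 → (a1 + e1 * (1 + x - a1)) * (1 + x * a1) = (1 + x) * (a1 + e1) ∧
      (a2 + a1 * (e1 * (1 + x - a2)) + e1 * (1 + x - a1) + e2 * (1 + x - a1)) * (1 + x * a1) =
        (1 + x) * (e1 + e2 + 2 * a1 * e1 + a2 - a2 * e1)) ∧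
    (x = -1 → a1 = 0 → (a1 + e1 * (1 + x - a1)) * (1 + x * a1) = (1 + x) * (a1 + e1) ∧
      (a2 + a1 * (e1 * (1 + x - a2)) + e1 * (1 + x - a1) + e2 * (1 + x - a1)) * (1 + x * a1) =
        (1 + x) * (e1 + e2 + 2 * a1 * e1 + a2 - a2 * e1)) ∧
    (x = 0 → a2 = 0 → (a1 + e1 * (1 + x - a1)) * (1 + x * a1 - a2) =
        (1 + x) * (a1 + e1) - (a1 * e1 + a2) ∧
      (a2 + a1 * (e1 * (1 + x - a2)) + e1 * (1 + x - a1) + e2 * 0) * (1 + x * a1 - a2) =
        (1 + x) * (e1 + e2 + 2 * a1 * e1 + a2 - a2 * e1) - (e2 + 2 * a1 * e1 + a2)) := by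
  refine ⟨?_, ?_, ?_⟩
  · rintro rfl
    rcases h1 with rfl | rfl
    · rw [h4 rfl]
      constructor <;> ring
    · rcases h3 with rfl | rfl
      · rw [h5 rfl]
        constructor <;> ring
      · constructor <;> ring
  · rintro rfl rfl
    rw [h4 rfl]
    constructor <;> ring
  · rintro rfl rfl
    constructor <;> ring

theorem pf_NLC (hNRF : Pool.Agent.H95.AD.T_NRF) (hCHV : T_CHV) : T_NLC := by
  intro D p A B e hD3 hD4 hDs hp hA he hdvd
  obtain ⟨C, hC⟩ : ∃ C : ℕ, (B ^ 2 + D) / (4 * A) = C := ⟨_, rfl⟩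
  rw [hC]
  have hC' : 4 * A * C = B ^ 2 + D := by
    rw [← hC]
    exact Nat.mul_div_cancel' hdvd
  have hC2 : 4 * (A : ℤ) * (C : ℤ) - (B : ℤ) ^ 2 = (D : ℤ) := by
    have h1 : (4 * A * C : ℤ) = (B : ℤ) ^ 2 + D := by exact_mod_cast hC'
    linarith
  obtain ⟨hx, hx0⟩ := hCHV D p hD4 hp
  obtain ⟨h1, h2, h3⟩ := hNRF p D A (B : ℤ) (C : ℤ) hp hD3 hD4 hDs hA hC2
  -- a prime divisor of `A` and of `D` divides `A` once
  have hAD : p ∣ D → ¬ p ^ 2 ∣ A := by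
    intro hpD hpA
    have h4 : p ∣ B ^ 2 + D := by
      rw [← hC', mul_assoc, mul_comm 4, mul_assoc]
      exact (dvd_trans (dvd_pow_self p two_ne_zero) hpA).mul_right _
    have h5 : p ∣ B ^ 2 := (Nat.dvd_add_left hpD).1 h4
    have h6 : p ∣ B := hp.dvd_of_dvd_pow h5
    have h7 : p ^ 2 ∣ B ^ 2 := pow_dvd_pow_of_dvd h6 2
    have h8 : p ^ 2 ∣ B ^ 2 + D := by
      rw [← hC', mul_assoc, mul_comm 4, mul_assoc]
      exact hpA.mul_right _
    have h9 : p ^ 2 ∣ D := (Nat.dvd_add_right h7).1 h8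
    rw [sq] at h9
    have h10 := hDs p h9
    rw [Nat.isUnit_iff] at h10
    exact hp.one_lt.ne' h10
  have hpp : p ^ 2 ∣ A → p ∣ A := fun h => dvd_trans (dvd_pow_self p two_ne_zero) h
  have hpe : p ^ 2 ∣ e → p ∣ e := fun h => dvd_trans (dvd_pow_self p two_ne_zero) h
  have hn1 : (0 : ℤ) ≤ (nrt p A B C : ℤ) := Int.natCast_nonneg _
  rw [loc_0, loc_1, loc_2]
  have h1r : (nrt p A B C : ℝ) = 1 + (chi p D : ℝ) - iv (p ∣ A) := by
    have := congrArg (fun z : ℤ => (z : ℝ)) h1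
    push_cast at this
    rw [this]
    by_cases a1 : p ∣ A
    · rw [if_pos a1, iv_pos a1]
    · rw [if_neg a1, iv_neg a1]
  have h2r : (nrt (p ^ 2) A B C : ℝ) =
      if p ∣ D then 0 else 1 + (chi p D : ℝ) - iv (p ∣ A) := by
    have := congrArg (fun z : ℤ => (z : ℝ)) h2
    push_cast at this
    rw [this]
    by_cases a1 : p ∣ A
    · rw [if_pos a1, iv_pos a1]
    · rw [if_neg a1, iv_neg a1]
  have h3r : p ∣ A → (nrt p ((A / p : ℕ) : ℤ) B (p * C) : ℝ) =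
      1 + (chi p D : ℝ) - iv (p ^ 2 ∣ A) := by
    intro h
    have := congrArg (fun z : ℤ => (z : ℝ)) (h3 h)
    push_cast at this
    push_cast
    rw [this]
    by_cases a1 : p ^ 2 ∣ A
    · rw [if_pos a1, iv_pos a1]
    · rw [if_neg a1, iv_neg a1]
  have hN1 : (N1 p A B C e : ℝ) = iv (p ∣ A) + iv (p ∣ e) * (1 + (chi p D : ℝ) - iv (p ∣ A)) := by
    unfold N1
    push_cast
    rw [h1r]
    by_cases a1 : p ∣ A <;> by_cases e1 : p ∣ e <;> simp [a1, e1, iv]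
  have hN2 : (N2 p A B C e : ℝ) = iv (p ^ 2 ∣ A) +
      iv (p ∣ A) * (iv (p ∣ e) * (1 + (chi p D : ℝ) - iv (p ^ 2 ∣ A))) +
      iv (p ∣ e) * (1 + (chi p D : ℝ) - iv (p ∣ A)) +
      iv (p ^ 2 ∣ e) * (if p ∣ D then 0 else 1 + (chi p D : ℝ) - iv (p ∣ A)) := by
    unfold N2
    rw [Nat.cast_add, Nat.cast_add, Nat.cast_add]
    congr 1
    · congr 1
      · congr 1
        · unfold iv
          split_ifs <;> simp
        · by_cases a1 : p ∣ A
          · by_cases e1 : p ∣ e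
            · rw [if_pos ⟨a1, e1⟩, h3r a1, iv_pos a1, iv_pos e1, one_mul, one_mul]
            · rw [if_neg fun h => e1 h.2, iv_neg e1, zero_mul, mul_zero, Nat.cast_zero]
          · rw [if_neg fun h => a1 h.1, iv_neg a1, zero_mul, Nat.cast_zero]
      · by_cases e1 : p ∣ e
        · rw [if_pos e1, h1r, iv_pos e1, one_mul]
        · rw [if_neg e1, iv_neg e1, zero_mul, Nat.cast_zero]
    · by_cases e1 : p ^ 2 ∣ e
      · rw [if_pos e1, h2r, iv_pos e1, one_mul]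
      · rw [if_neg e1, iv_neg e1, zero_mul, Nat.cast_zero]
  rw [hN1, hN2]
  obtain ⟨c1, c2, c3⟩ := cmp (chi p D : ℝ) (iv (p ∣ A)) (iv (p ^ 2 ∣ A)) (iv (p ∣ e))
    (iv (p ^ 2 ∣ e)) (iv_cases _) (iv_cases _) (iv_cases _) (fun h => by
      by_cases a1 : p ∣ A
      · rw [iv_pos a1] at h
        exact absurd h one_ne_zero
      · exact iv_neg fun h => a1 (hpp h)) (fun h => by
      by_cases a1 : p ∣ e
      · rw [iv_pos a1] at h
        exact absurd h one_ne_zero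
      · exact iv_neg fun h => a1 (hpe h))
  rcases hx with hx | hx | hx
  · have hne : chi p D ≠ 0 := by rw [hx]; norm_num
    have hpD : ¬ p ∣ D := fun h => hne (hx0.2 h)
    rw [iv_neg hne, if_neg hpD, zero_mul, zero_mul, zero_mul, sub_zero, sub_zero, sub_zero]
    exact c1 (by rw [hx]; norm_num)
  · have hpD : p ∣ D := hx0.1 hx
    rw [iv_pos hx, if_pos hpD, one_mul, one_mul, one_mul]
    exact c3 (by rw [hx]; norm_num) (iv_neg (hAD hpD))
  · have hne : chi p D ≠ 0 := by rw [hx]; norm_num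
    have hpD : ¬ p ∣ D := fun h => hne (hx0.2 h)
    rw [iv_neg hne, if_neg hpD, zero_mul, zero_mul, zero_mul, sub_zero, sub_zero, sub_zero]
    refine c2 (by rw [hx]; norm_num) (iv_neg fun h => ?_)
    rw [h1, if_pos h, hx] at hn1
    norm_num at hn1

end Pool.Agent.H14.AD
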