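import Pool.Agent.H65.AD.TargetsB

/-!
# The variation of the remaining sum
-/

set_option autoImplicit false

open MeasureTheory Set Filter
open scoped Real

namespace Pool.Agent.H14.AD

open Pool.Agent.H31.CN Pool.Agent.H95.AD Pool.Agent.H50.CN Pool.Agent.H65.AD

theorem BD_Bw {P : Polynomial ℝ} {C : ℝ} (hC0 : 0 ≤ C)
    (hC : ∀ (M : ℝ) (N m : ℕ), 1 < M → 1 ≤ m → |cm P M N m| ≤ C) {N : ℕ} {M : ℝ} (hM : 1 < M)
    {w s d : ℕ} (hs : 1 ≤ s) (hd1 : 1 ≤ d) :
    BD (C * Sn ⌊M⌋₊) (Real.log M - Real.log d) (Bw P M N w s d) := by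
  have hM0 : 0 < M := by linarith
  have hdR : (1 : ℝ) ≤ d := by exact_mod_cast hd1
  have h2 : BD (∑ n ∈ (Finset.Icc 1 ⌊M⌋₊).filter (fun n => Nat.Coprime n d),
      C * (2 ^ n.primeFactors.card / (n : ℝ))) (Real.log M - Real.log d)
      (Bw P M N w s d) := by
    unfold Bw
    refine BD_sum _ fun n hn => ?_
    have hn1 := (Finset.mem_Icc.1 (Finset.mem_filter.1 hn).1).1
    have hnR : (1 : ℝ) ≤ n := by exact_mod_cast hn1
    by_cases hz : cw P M N w s (d * n) = 0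
    · rw [hz, zero_smul]
      exact BD_mono (BD_zero _) (by positivity) le_rfl
    · have hcw : cw P M N w s (d * n) = cm P M N (s * (d * n)) := by
        unfold cw at hz ⊢
        split_ifs at hz ⊢ with h
        · rfl
        · exact absurd rfl hz
      rw [hcw] at hz ⊢
      have hsq : Squarefree (s * (d * n)) := by
        by_contra hcon
        exact hz (cm_sq P M N _ hcon)
      have hnsq : Squarefree n :=
        hsq.squarefree_of_dvd ((Dvd.intro_left d rfl).trans (Dvd.intro_left s rfl))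
      have hle : ((s * (d * n) : ℕ) : ℝ) ≤ M := by
        by_contra hcon
        refine hz ?_
        unfold cm
        rw [if_neg fun h => hcon h.1]
      have hle' : ((d * n : ℕ) : ℝ) ≤ M := by
        refine le_trans ?_ hle
        exact_mod_cast Nat.le_mul_of_pos_left (d * n) hs
      have hln : Real.log n ≤ Real.log M - Real.log d := by
        have h3 := Real.log_le_log (by push_cast; positivity) hle'
        push_cast at h3
        rw [Real.log_mul (by linarith) (by linarith)] at h3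
        linarith
      have h4 : BD (2 ^ n.primeFactors.card / (n : ℝ)) (Real.log n)
          (∏ p ∈ n.primeFactors, al p) := by
        rw [← prod_eq hnsq, ← sum_eq hnsq]
        exact BD_prod _ (fun p _ => by positivity)
          fun p hp => BD_al (Nat.prime_of_mem_primeFactors hp)
      refine BD_mono (BD_smul h4 _) ?_ hln
      refine mul_le_mul_of_nonneg_right (hC M N _ hM ?_) (by positivity)
      exact Nat.succ_le_of_lt (Nat.mul_pos hs (Nat.mul_pos hd1 hn1))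
  refine BD_mono h2 ?_ le_rfl
  rw [← Finset.mul_sum]
  refine mul_le_mul_of_nonneg_left ?_ hC0
  exact Finset.sum_le_sum_of_subset_of_nonneg (Finset.filter_subset _ _)
    (fun _ _ _ => by positivity)

theorem pf_QBD (hQWD : T_QWD) (hEOM : T_EOM) : T_QBD := by
  intro P
  obtain ⟨C, hC0, hC⟩ := cm_le P
  obtain ⟨_, _, hE⟩ := hEOM
  refine ⟨C ^ 2 + 1, by positivity, fun M N w n₁ n₂ hM hN hw h1 h2 => ?_⟩
  have hM1 : 1 < M := by linarith
  have hM0 : 0 < M := by linarith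
  have hw0 : 0 < w := Nat.pos_of_ne_zero hw.ne_zero
  have hs1 : 1 ≤ n₁ := Nat.pos_of_dvd_of_pos h1 hw0
  have hs2 : 1 ≤ n₂ := Nat.pos_of_dvd_of_pos h2 hw0
  rw [hQWD P M N w n₁ n₂ hM1.le hN hw h1 h2]
  have key : ∀ d ∈ (Finset.Icc 1 ⌊M⌋₊).filter (fun d => Squarefree d),
      BD (2 ^ d.primeFactors.card / (d : ℝ) * (C * Sn ⌊M⌋₊) ^ 2) (2 * Real.log M)
        ((∏ p ∈ d.primeFactors, eo p) * (Bw P M N w n₁ d * Bw P M N w n₂ d)) := by
    intro d hd
    obtain ⟨hd1, hdsq⟩ := Finset.mem_filter.1 hd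
    obtain ⟨hd1, hd2⟩ := Finset.mem_Icc.1 hd1
    have h3 := (hE d hdsq).2
    have h5 := BD_mul (BD_Bw hC0 hC (N := N) (w := w) hM1 hs1 hd1)
      (BD_Bw hC0 hC (N := N) (w := w) hM1 hs2 hd1) (mul_nonneg hC0 (Sn_nonneg _))
    have h6 := BD_mul h3 h5 (mul_self_nonneg _)
    rw [sq]
    refine BD_mono h6 le_rfl ?_
    linarith
  have h7 := BD_sum _ key
  refine BD_mono h7 ?_ le_rfl
  rw [← Finset.sum_mul]
  have h8 : ∑ d ∈ (Finset.Icc 1 ⌊M⌋₊).filter (fun d => Squarefree d),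
      2 ^ d.primeFactors.card / (d : ℝ) ≤ Sn ⌊M⌋₊ :=
    Finset.sum_le_sum_of_subset_of_nonneg (Finset.filter_subset _ _)
      (fun _ _ _ => by positivity)
  have h9 : Sn ⌊M⌋₊ ≤ (1 + Real.log M) ^ 2 := by
    refine (Sn_le _).trans ?_
    have h10 : (0 : ℝ) ≤ Real.log (⌊M⌋₊ : ℝ) := Real.log_natCast_nonneg _
    have h12 : (0 : ℝ) < (⌊M⌋₊ : ℝ) := by
      have : 0 < ⌊M⌋₊ := Nat.floor_pos.2 hM1.le
      exact_mod_cast this
    have h11 : Real.log (⌊M⌋₊ : ℝ) ≤ Real.log M := Real.log_le_log h12 (Nat.floor_le hM0.le)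
    exact pow_le_pow_left₀ (by linarith) (by linarith) 2
  have hlog : 0 ≤ Real.log M := Real.log_nonneg hM1.le
  have hS0 := Sn_nonneg ⌊M⌋₊
  calc _ ≤ Sn ⌊M⌋₊ * (C * Sn ⌊M⌋₊) ^ 2 :=
        mul_le_mul_of_nonneg_right h8 (sq_nonneg _)
    _ = C ^ 2 * Sn ⌊M⌋₊ ^ 3 := by ring
    _ ≤ C ^ 2 * ((1 + Real.log M) ^ 2) ^ 3 :=
        mul_le_mul_of_nonneg_left (pow_le_pow_left₀ hS0 h9 3) (sq_nonneg _)
    _ = C ^ 2 * (1 + Real.log M) ^ 6 := by ring
    _ ≤ (C ^ 2 + 1) * (1 + Real.log M) ^ 6 :=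
        mul_le_mul_of_nonneg_right (by linarith) (by positivity)

end Pool.Agent.H14.AD
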